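import Pool.Agent.H66.SO.Core
import Pool.Agent.H66.SO.T.TOPA
import Pool.Agent.H66.SO.T.TOPB
import Pool.Agent.H66.SO.T.TOPC
import Pool.Agent.H66.SO.T.TWS
import Pool.Agent.H66.SO.T.SPN
import Pool.Agent.H66.SO.T.ROB
import Pool.Agent.H66.SO.T.FLC
import Pool.Agent.H66.SO.T.FLT
import Pool.Agent.H66.SO.T.DIF
import Pool.Agent.H66.SO.T.TRI
import Pool.Agent.H66.SO.T.REG
import Pool.Agent.H66.SO.T.NFL
import Pool.Agent.H66.SO.T.POS
import Pool.Agent.H66.SO.T.ADD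
import Pool.Agent.H66.SO.T.RAT
import Pool.Agent.H66.SO.T.LIN
import Pool.Agent.H66.SO.T.PEX
import Pool.Agent.H66.SO.T.EQN
import Pool.Agent.H66.SO.T.SYT
import Pool.Agent.H66.SO.T.QUD
import Pool.Agent.H66.SO.T.FIN
import Pool.Agent.H66.SO.T.CNV
import Pool.Agent.H66.SO.T.CNW

/-!
# Project SO: all stubs
-/

set_option autoImplicit false

namespace Pool.Agent.H66.SO

open TopologicalSpace Metric Filter Topology
open Pool.Agent.Lead.BR (Tr Sm NF Bo Orth Pairs Hilb exists_NF)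

theorem main_all (E : Type) [NormedAddCommGroup E] [NormedSpace ℝ E] [CompleteSpace E]
    [SeparableSpace E] (hinf : ¬ FiniteDimensional ℝ E) (hTr : Tr E) :
    List.TFAE [
      Hilb E,
      ∃ x : E, ‖x‖ = 1 ∧ ¬ IsMeagre {y : Orth x | Bo (y : E) x},
      ¬ IsMeagre {q : Pairs E | Bo q.1.2 q.1.1},
      ∃ x : E, ‖x‖ = 1 ∧ ¬ IsMeagre {y : sphere (0 : E) 1 | Dec x (y : E)}] :=
  have hNFL : S_NFL := T.NFL.main T.ROB.main T.FLT.main
  have hTRI : S_TRI := T.TRI.main T.FLC.main T.FLT.main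
  have hEQN : S_EQN := T.EQN.main
  final T.TOPA.main T.TOPB.main T.TOPC.main T.CNV.main T.CNW.main T.TWS.main hTRI
    (T.REG.main T.ROB.main T.FLT.main) (T.POS.main T.SPN.main hNFL)
    (T.PEX.main T.ROB.main (T.ADD.main) (T.RAT.main T.ROB.main) T.LIN.main hTRI)
    (T.SYT.main hEQN) (T.QUD.main T.DIF.main) T.FIN.main E hinf hTr

theorem main_local (E : Type) [NormedAddCommGroup E] [NormedSpace ℝ E] [CompleteSpace E]
    (hinf : ¬ FiniteDimensional ℝ E) (hTr : Tr E) (hSm : Sm E) (x0 y0 : E) (r : ℝ)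
    (hx : ‖x0‖ = 1) (hy : ‖y0‖ = 1) (hxy : Bo x0 y0) (hr : 0 < r)
    (h : ∀ x y : E, ‖x‖ = 1 → ‖y‖ = 1 → ‖x - x0‖ < r → ‖y - y0‖ < r → Bo x y → Bo y x) :
    Hilb E :=
  have hNFL : S_NFL := T.NFL.main T.ROB.main T.FLT.main
  have hTRI : S_TRI := T.TRI.main T.FLC.main T.FLT.main
  have hEQN : S_EQN := T.EQN.main
  localB T.TWS.main hTRI
    (T.REG.main T.ROB.main T.FLT.main) (T.POS.main T.SPN.main hNFL)
    (T.PEX.main T.ROB.main (T.ADD.main) (T.RAT.main T.ROB.main) T.LIN.main hTRI)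
    (T.SYT.main hEQN) (T.QUD.main T.DIF.main) T.FIN.main E hinf hTr hSm x0 y0 r hx hy hxy hr h

end Pool.Agent.H66.SO
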