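import Pool.Agent.H66.SO.Stm2
import Pool.Agent.Lead.BR.Asm3

/-!
# Project SO: assembly
-/

set_option autoImplicit false

namespace Pool.Agent.H66.SO

open TopologicalSpace Metric Filter Topology
open Pool.Agent.Lead.BR (Tr Sm NF Bo Orth Pairs Hilb exists_NF)

theorem core (hTWS : S_TWS) (hTRI : S_TRI) (hREG : S_REG) (hPOS : S_POS) (hPEX : S_PEX)
    (hSYT : S_SYT) (hQUD : S_QUD) (hFIN : S_FIN)
    (E : Type) [NormedAddCommGroup E] [NormedSpace ℝ E] [CompleteSpace E]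
    (D : E → StrongDual ℝ E) (hTr : Tr E) (hinf : ¬ FiniteDimensional ℝ E) (hSm : Sm E)
    (hD : NF D) (x0 y0 : E) (r : ℝ) (h : Loc1 D x0 y0 r) : Hilb E := by
  obtain ⟨δ, hL⟩ := hTWS E D hSm hD x0 y0 r h
  obtain ⟨a, b, ha, hb, hxa, hxb, hli⟩ := hTRI E D hTr hinf hSm hD x0 y0 δ hL
  have hli2 : LinearIndependent ℝ ![D y0, D a] := by
    have := hli.comp (![0, 1] : Fin 2 → Fin 3) (by decide)
    convert this using 1
    funext i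
    fin_cases i <;> rfl
  have hNR := hREG E D hTr hinf hSm hD x0 y0 a δ hL ha hxa hli2
  have hP := hPOS E D hSm hD hNR x0 y0 δ hL
  obtain ⟨ρ, μ, T, hρ, hρ4, hTc, hT⟩ := hPEX E D hTr hinf hSm hD hNR x0 y0 δ hL hP
  have hsym := hSYT E D hinf hSm hD hNR y0 ρ μ T hL.2.1 hρ hρ4 hTc hT
  exact hFIN E hTr y0 hL.2.1 (hQUD E D hSm hD y0 ρ μ T hL.2.1 hρ hρ4 hT hsym)

theorem localB (hTWS : S_TWS) (hTRI : S_TRI) (hREG : S_REG) (hPOS : S_POS) (hPEX : S_PEX)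
    (hSYT : S_SYT) (hQUD : S_QUD) (hFIN : S_FIN)
    (E : Type) [NormedAddCommGroup E] [NormedSpace ℝ E] [CompleteSpace E]
    (hinf : ¬ FiniteDimensional ℝ E) (hTr : Tr E) (hSm : Sm E) (x0 y0 : E) (r : ℝ)
    (hx : ‖x0‖ = 1) (hy : ‖y0‖ = 1) (hxy : Bo x0 y0) (hr : 0 < r)
    (h : ∀ x y : E, ‖x‖ = 1 → ‖y‖ = 1 → ‖x - x0‖ < r → ‖y - y0‖ < r → Bo x y → Bo y x) :
    Hilb E := by
  obtain ⟨D, hD⟩ := exists_NF E
  have hO := Pool.Agent.Lead.BR.T.ORT.main E D hSm hD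
  have hne : ∀ x : E, ‖x‖ = 1 → x ≠ 0 := fun x hx h0 => by
    rw [h0, norm_zero] at hx
    exact zero_ne_one hx
  refine core hTWS hTRI hREG hPOS hPEX hSYT hQUD hFIN E D hTr hinf hSm hD x0 y0 r
    ⟨hx, hy, (hO x0 y0 (hne x0 hx)).1 hxy, hr, fun x y h1 h2 h3 h4 h5 => ?_⟩
  exact (hO y x (hne y h2)).1 (h x y h1 h2 h3 h4 ((hO x y (hne x h1)).2 h5))

theorem final (hTOPA : S_TOPA) (hTOPB : S_TOPB) (hTOPC : S_TOPC) (hCNV : S_CNV) (hCNW : S_CNW)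
    (hTWS : S_TWS) (hTRI : S_TRI) (hREG : S_REG) (hPOS : S_POS) (hPEX : S_PEX)
    (hSYT : S_SYT) (hQUD : S_QUD) (hFIN : S_FIN)
    (E : Type) [NormedAddCommGroup E] [NormedSpace ℝ E] [CompleteSpace E] [SeparableSpace E]
    (hinf : ¬ FiniteDimensional ℝ E) (hTr : Tr E) :
    List.TFAE [
      Hilb E,
      ∃ x : E, ‖x‖ = 1 ∧ ¬ IsMeagre {y : Orth x | Bo (y : E) x},
      ¬ IsMeagre {q : Pairs E | Bo q.1.2 q.1.1},
      ∃ x : E, ‖x‖ = 1 ∧ ¬ IsMeagre {y : sphere (0 : E) 1 | Dec x (y : E)}] := by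
  obtain ⟨D, hD⟩ := exists_NF E
  have hSm : Sm E := Pool.Agent.Lead.BR.T.SM.main E hTr
  have hrank : 1 < Module.rank ℝ E := by
    have h1 : ¬ Module.rank ℝ E < Cardinal.aleph0 := fun h =>
      hinf (Module.rank_lt_aleph0_iff.1 h)
    exact lt_of_lt_of_le Cardinal.one_lt_aleph0 (not_lt.1 h1)
  have hcore := fun x0 y0 r h => core hTWS hTRI hREG hPOS hPEX hSYT hQUD hFIN E D hTr hinf hSm hD
    x0 y0 r h
  tfae_have 1 → 2 := fun h => (hCNV E hrank h).1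
  tfae_have 1 → 3 := fun h => (hCNV E hrank h).2
  tfae_have 1 → 4 := fun h => hCNW E hrank h
  tfae_have 2 → 1 := by
    rintro ⟨x, hx, hM⟩
    obtain ⟨x0, y0, r, h⟩ := hTOPA E D hTr hSm hD x hx hM
    exact hcore x0 y0 r h
  tfae_have 3 → 1 := by
    intro hM
    obtain ⟨x0, y0, r, h⟩ := hTOPB E D hSm hD hM
    exact hcore x0 y0 r h
  tfae_have 4 → 1 := by
    rintro ⟨x, hx, hM⟩
    obtain ⟨x0, y0, r, h⟩ := hTOPC E D hTr hinf hSm hD x hx hM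
    exact hcore x0 y0 r h
  tfae_finish

end Pool.Agent.H66.SO
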