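import Pool.Agent.Lead.BR.Stubs

/-!
# Project SO (MP_cc72b1_an, Banach-Mazur rotation problem): symmetric orthogonality

THEOREM. `E` separable infinite-dimensional real Banach space, isometries transitive on the unit
sphere. If for one unit `x` the set of `y` with `x ⊥ y` and `y ⊥ x` (Birkhoff) is not meagre in
`Orth x = {y : ‖y‖ = 1, x ⊥ y}`, or if the mutually orthogonal pairs are not meagre in `Pairs E`,
then `E` is a Hilbert space (and conversely).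

`D` = norming functionals (`NF D`), `Sm E` = smooth. AVAILABLE, PROVED (import them):
`Pool.Agent.Lead.BR.T.{SM,ORT,CON,EQV,PAR,...}` : `T.SM.main : S_SM`, `T.ORT.main : S_ORT`,
`T.CON.main : S_CON` (continuity of `D`), `T.EQV.main : S_EQV` (`D (T x) (T y) = D x y`,
`D (c • x) = D x` for `0 < c`), `near_open` (file `Pool/Agent/Lead/BR/Near.lean`),
`S_PAR` (quadratic along short lines gives the parallelogram law).

HOW: prove `theorem main : S_XXX` (or `S_AAA → S_XXX` if the docstring names dependencies) in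
`Pool/Agent/H66/SO/T/XXX.lean`, namespace `Pool.Agent.H66.SO.T.XXX`.
-/

set_option autoImplicit false

namespace Pool.Agent.H66.SO

open TopologicalSpace Metric Filter Topology
open Pool.Agent.Lead.BR (Tr Sm NF Bo Orth Pairs Hilb)

section
variable {E : Type} [NormedAddCommGroup E] [NormedSpace ℝ E]

/-- one-sided local symmetry of the orthogonality, for unit vectors -/
def Loc1 (D : E → StrongDual ℝ E) (x0 y0 : E) (r : ℝ) : Prop :=
  ‖x0‖ = 1 ∧ ‖y0‖ = 1 ∧ D x0 y0 = 0 ∧ 0 < r ∧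
    ∀ x y : E, ‖x‖ = 1 → ‖y‖ = 1 → ‖x - x0‖ < r → ‖y - y0‖ < r → D x y = 0 → D y x = 0

/-- local symmetry of the orthogonality near `(x0, y0)` -/
def Loc (D : E → StrongDual ℝ E) (x0 y0 : E) (δ : ℝ) : Prop :=
  ‖x0‖ = 1 ∧ ‖y0‖ = 1 ∧ D x0 y0 = 0 ∧ D y0 x0 = 0 ∧ 0 < δ ∧ δ ≤ 1 / 4 ∧
    ∀ x y : E, ‖x - x0‖ < δ → ‖y - y0‖ < δ → (D x y = 0 ↔ D y x = 0)

/-- no direction is flat on an open set -/
def NR (D : E → StrongDual ℝ E) : Prop :=
  ∀ (c e : E) (r : ℝ), c ≠ 0 → 0 < r → (∀ y : E, ‖y - c‖ < r → D y e = 0) → e = 0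

/-- positivity of the coefficients -/
def Pos (D : E → StrongDual ℝ E) (x0 y0 : E) (δ : ℝ) : Prop :=
  ∀ p q x1 : E, ‖p - y0‖ < δ → ‖q - y0‖ < δ → ‖x1 - x0‖ < δ → D p x1 = 0 → D q x1 = 0 →
    LinearIndependent ℝ ![D p, D q] → ∀ a b : ℝ, 0 < a → 0 < b →
    ∃ α β : ℝ, 0 < α ∧ 0 < β ∧ D (a • p + b • q) = α • D p + β • D q

/-- `r` is the ratio of the coefficients of `D (b + y)` -/
def Rat (D : E → StrongDual ℝ E) (b y : E) (r : ℝ) : Prop :=
  0 < r ∧ ∃ c : ℝ, 0 < c ∧ D (b + y) = c • (D b + r • D y)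

end

/-- TOPA. The slice version. `{y : Orth x | Bo y x}` is closed in `Orth x` (ORT, CON and
`|D z x| ` bounds), so if it is not meagre it contains all `y ∈ Orth x` with `‖y - y0‖ < r` for some
`y0 ∈ Orth x`. Take `x0 = x`. By `near_open` (one vector `e = y0`, `κ = r/8`), every unit `x'` near
`x` is a limit of `T x` with `‖T y0 - y0‖ ≤ κ`. Let `(x', y')` be a unit pair near `(x, y0)` with
`D x' y' = 0` and `T = T_n`, `T x → x'`. Put `w = T⁻¹ y' - D x (T⁻¹ y') • x`; `D x w = 0`;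
`D x (T⁻¹ y') = D (T x) y' → D x' y' = 0`, so `w / ‖w‖` is in the slice and near `y0`, hence
`D w x = 0`, so `D (T w) (T x) = 0`, `T w = y' - D (T x) y' • T x → y'`, `T x → x'`, and
`D y' x' = 0` in the limit (CON at `y'` for the vector `x'`, `|D z (T x) - D z x'| ≤ ‖T x - x'‖`). -/
def S_TOPA : Prop :=
  ∀ (E : Type) [NormedAddCommGroup E] [NormedSpace ℝ E] [CompleteSpace E] [SeparableSpace E]
    (D : E → StrongDual ℝ E), Tr E → Sm E → NF D → ∀ x : E, ‖x‖ = 1 →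
    ¬ IsMeagre {y : Orth x | Bo (y : E) x} → ∃ (x0 y0 : E) (r : ℝ), Loc1 D x0 y0 r

/-- TOPB. The version for pairs: `{q | Bo q.2 q.1}` is closed in `Pairs E` (ORT, CON), so if it is not
meagre it has an interior point `(x0, y0)`. -/
def S_TOPB : Prop :=
  ∀ (E : Type) [NormedAddCommGroup E] [NormedSpace ℝ E] (D : E → StrongDual ℝ E), Sm E → NF D →
    ¬ IsMeagre {q : Pairs E | Bo q.1.2 q.1.1} → ∃ (x0 y0 : E) (r : ℝ), Loc1 D x0 y0 r

/-- TWS. One-sided to two-sided. By homogeneity (EQV) `Loc1` gives `δ0 > 0` with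
`D x y = 0 → D y x = 0` for all (not only unit) `x, y` within `δ0` of `x0, y0`; so `D y0 x0 = 0`.
Fix `0 < η < δ0 / 4`. `D (x0 ± η y0) y0 ≠ 0`: otherwise `D y0 (x0 ± η y0) = 0`, `η = 0`. Signs:
`‖x0‖ = D x0 (x0 + η y0) ≤ ‖x0 + η y0‖ = D (x0 + η y0) (x0 + η y0) ≤ ‖x0‖ + η D (x0 + η y0) y0`, so
`D (x0 + η y0) y0 > 0`, and in the same way `D (x0 - η y0) y0 < 0`. By continuity (CON and
`|D z y - D z y0| ≤ ‖y - y0‖`) `D (x + η y) y > 0 > D (x - η y) y` for `(x, y)` within `δ` of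
`(x0, y0)`. Let `D y x = 0` for such a pair. By the intermediate value theorem for
`t ↦ D (x + t y) y` on `[-η, η]` there is `t` with `D (x + t y) y = 0`, so `D y (x + t y) = 0`,
`t ‖y‖ = 0`, `t = 0` and `D x y = 0`. -/
def S_TWS : Prop :=
  ∀ (E : Type) [NormedAddCommGroup E] [NormedSpace ℝ E] (D : E → StrongDual ℝ E), Sm E → NF D →
    ∀ (x0 y0 : E) (r : ℝ), Loc1 D x0 y0 r → ∃ δ : ℝ, Loc D x0 y0 δ

/-- SPN. The span property. For `v` with `D p v = 0 = D q v` and small `ε`, `x1` and `x1 + ε v` are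
within `δ` of `x0` and killed by `D p`, `D q`; so `D (x1 + ε v)` vanishes at `p`, `q` and at
`z = (a p + b q) / (a + b)`, which is within `δ` of `y0`; hence `D z (x1 + ε v) = 0`, `D z x1 = 0`,
`D z v = 0`. So `ker D p ⊓ ker D q ≤ ker D z`, and `D z` is a combination (Mathlib
`mem_span_of_iInf_ker_le_ker` or by hand); `D (a p + b q) = D z` (EQV). -/
def S_SPN : Prop :=
  ∀ (E : Type) [NormedAddCommGroup E] [NormedSpace ℝ E] (D : E → StrongDual ℝ E), Sm E → NF D →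
    ∀ (x0 y0 : E) (δ : ℝ), Loc D x0 y0 δ → ∀ p q x1 : E, ‖p - y0‖ < δ → ‖q - y0‖ < δ →
      ‖x1 - x0‖ < δ → D p x1 = 0 → D q x1 = 0 → ∀ a b : ℝ, 0 ≤ a → 0 ≤ b → 0 < a + b →
      D (a • p + b • q) x1 = 0 ∧ ∃ α β : ℝ, D (a • p + b • q) = α • D p + β • D q

/-- ROB. Robustness. Choose `e j` with `D (p i) (e j) = δ_ij` (independent functionals). For `p'` near
`p` the matrix `D (p' i) (e j)` is near the identity, hence invertible with inverse bounded by 2
(so the `D (p' i)` are independent), and `D (p' i) x1` is small (CON); solve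
`x' = x1 + ∑ c j • e j`, `∑_j D (p' i) (e j) c j = - D (p' i) x1`, `c` small. -/
def S_ROB : Prop :=
  ∀ (E : Type) [NormedAddCommGroup E] [NormedSpace ℝ E] (D : E → StrongDual ℝ E), Sm E → NF D →
    ∀ (n : ℕ) (p : Fin n → E) (x1 : E) (ε : ℝ), 0 < ε → (∀ i, p i ≠ 0) →
      LinearIndependent ℝ (fun i => D (p i)) → (∀ i, D (p i) x1 = 0) →
      ∃ ρ : ℝ, 0 < ρ ∧ ∀ p' : Fin n → E, (∀ i, ‖p' i - p i‖ < ρ) →
        LinearIndependent ℝ (fun i => D (p' i)) ∧ ∃ x' : E, ‖x' - x1‖ < ε ∧ ∀ i, D (p' i) x' = 0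

/-- FLC. No flat piece of finite codimension. Let `G` be a subspace of dimension `n + 1`. Its closed
unit ball is compact and convex and has an extreme point `g`, `‖g‖ = 1`
(`IsCompact.extremePoints_nonempty`). Let `T z = g`. The `n` functionals `f i ∘ T⁻¹` have a common zero
`h ≠ 0` in `G`, `‖h‖ < ρ`; then `‖g ± h‖ = ‖z ± T⁻¹ h‖ = 1`, so `g` is not extreme. -/
def S_FLC : Prop :=
  ∀ (E : Type) [NormedAddCommGroup E] [NormedSpace ℝ E], Tr E → ¬ FiniteDimensional ℝ E →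
    ∀ (n : ℕ) (f : Fin n → StrongDual ℝ E) (z : E) (ρ : ℝ), ‖z‖ = 1 → 0 < ρ →
      ¬ ∀ w : E, ‖w‖ < ρ → (∀ i, f i w = 0) → ‖z + w‖ = 1

/-- FLT. `‖y + w‖ = D (y+w) (y+w) = D (y+w) y ≤ ‖y‖ = D y (y + w) ≤ ‖y + w‖`; so `D y` norms `y + w`
and smoothness gives `D (y + w) = D y`. -/
def S_FLT : Prop :=
  ∀ (E : Type) [NormedAddCommGroup E] [NormedSpace ℝ E] (D : E → StrongDual ℝ E), Sm E → NF D →
    ∀ y w : E, y ≠ 0 → y + w ≠ 0 → D y w = 0 → D (y + w) w = 0 → ‖y + w‖ = ‖y‖ ∧ D (y + w) = D y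

/-- TRI (from FLC, FLT). Otherwise, with `H = {y : ‖y - y0‖ < δ, D x0 y = 0}` (contains `y0`), all
`D y`, `y ∈ H`, are combinations of at most two functionals `f1, f2`. For `w` small with
`D x0 w = f1 w = f2 w = 0`: `y0 + w ∈ H`, so `D (y0 + w) w = 0 = D y0 w`, `‖y0 + w‖ = 1` (FLT),
contradicting FLC with `n = 3`. -/
def S_TRI : Prop :=
  ∀ (E : Type) [NormedAddCommGroup E] [NormedSpace ℝ E] (D : E → StrongDual ℝ E), Tr E →
    ¬ FiniteDimensional ℝ E → Sm E → NF D → ∀ (x0 y0 : E) (δ : ℝ), Loc D x0 y0 δ →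
      ∃ a b : E, ‖a - y0‖ < δ ∧ ‖b - y0‖ < δ ∧ D x0 a = 0 ∧ D x0 b = 0 ∧
        LinearIndependent ℝ ![D y0, D a, D b]

/-- REG (from ROB, FLT). For `z ≠ 0` let `R z = {e | ∃ r > 0, ∀ y, ‖y - z‖ < r → D y e = 0}`; by EQV
`R (T z) = T (R z)` and `R (t z) = R z`, `t > 0`. To show: `R z = 0`.
(1) If `x, y` are within `δ` of `x0, y0` and `D x y = 0` then `R y ⊆ R x` (and by the symmetry of `Loc`
`R x ⊆ R y`). Let `e ∈ R y` with radius `r`. For `x'` near `x` put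
`y' = y - (D x' y / ‖x'‖) • x'`: `D x' y' = 0`, `y'` is near `y` (CON), so `D y' x' = 0`. For small
`t ≠ 0`: `D y' e = 0 = D (y' + t e) e`, so `D (y' + t e) = D y'` (FLT), `D (y' + t e) x' = 0`,
`D x' (y' + t e) = 0`, and so `D x' e = 0`.
(2) There is `ρ > 0` with `R y0 ⊆ R y` for `‖y - y0‖ < ρ`: by (1) `R y0 ⊆ R x0 ⊆ R a`; by ROB for the
pair `(y0, a)` and `x0` there is `x'` near `x0` with `D y x' = 0 = D a x'`, so `D x' y = 0 = D x' a` and
by (1) `R a ⊆ R x' ⊆ R y`.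
(3) By transitivity `R z ⊆ R z'` for all unit vectors with `‖z - z'‖ < ρ`. So for fixed `e` the set of
the unit `z` with `e ∈ R z` is open and closed in the sphere, which is connected
(`isConnected_sphere`, dimension at least two). So if `0 ≠ e ∈ R z` for some `z` then
`e ∈ R (e / ‖e‖)`, `D e e = 0`, a contradiction. -/
def S_REG : Prop :=
  ∀ (E : Type) [NormedAddCommGroup E] [NormedSpace ℝ E] (D : E → StrongDual ℝ E), Tr E →
    ¬ FiniteDimensional ℝ E → Sm E → NF D → ∀ (x0 y0 a : E) (δ : ℝ), Loc D x0 y0 δ →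
      ‖a - y0‖ < δ → D x0 a = 0 → LinearIndependent ℝ ![D y0, D a] → NR D

/-- NFL (from ROB, FLT). No flat segments. Put `e = p / ‖p‖ - p' / ‖p'‖`, `φ = D p = D p'`, so
`φ e = 0`. By ROB for the pair `(p, w)` and `x1`, for all `y` near `w` there is `x'` within `δ` of `x0`
with `φ x' = 0 = D y x'`. For small `|t|`: `φ (x' + t e) = 0`, so `D (x' + t e)` vanishes at `p` and at
`p'` (Loc), hence at `e`; by FLT `D (x' + t e) = D x'`. From `D y x' = 0`: `D x' y = 0`,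
`D (x' + t e) y = 0`, `D y (x' + t e) = 0`, so `D y e = 0`, for all `y` near `w`; so `e = 0` by `NR`. -/
def S_NFL : Prop :=
  ∀ (E : Type) [NormedAddCommGroup E] [NormedSpace ℝ E] (D : E → StrongDual ℝ E), Sm E → NF D →
    NR D → ∀ (x0 y0 : E) (δ : ℝ), Loc D x0 y0 δ → ∀ p p' w x1 : E, ‖p - y0‖ < δ →
      ‖p' - y0‖ < δ → ‖w - y0‖ < δ → ‖x1 - x0‖ < δ → D p = D p' → D p x1 = 0 → D w x1 = 0 →
      LinearIndependent ℝ ![D p, D w] → ‖p'‖ • p = ‖p‖ • p'

/-- POS (from SPN, NFL). For `s ∈ [0, 1]` let `z s = (1 - s) p + s q` (within `δ` of `y0`); by SPN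
`D (z s) = α s • D p + β s • D q`, where `α`, `β` are continuous (evaluate at `e1, e2` dual to
`D p, D q`; CON), `(α, β) 0 = (1, 0)`, `(α, β) 1 = (0, 1)`. For `0 < s < 1`, `β s ≠ 0`: otherwise
`D (z s) = α s • D p`; all `D z`, `‖z - y0‖ < δ ≤ 1/4`, are positive at `y0`
(`D z y0 ≥ ‖z‖ - ‖z - y0‖ > 0`), so `α s > 0`, and both have norm one, so `D (z s) = D p`; then NFL
with `p' = z s`, `w = q` makes `q` a multiple of `p`, against the independence (EQV). In the same way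
`α s ≠ 0`. By continuity `α, β > 0` on `(0, 1)`. Take `s = b / (a + b)` (EQV). -/
def S_POS : Prop :=
  ∀ (E : Type) [NormedAddCommGroup E] [NormedSpace ℝ E] (D : E → StrongDual ℝ E), Sm E → NF D →
    NR D → ∀ (x0 y0 : E) (δ : ℝ), Loc D x0 y0 δ → Pos D x0 y0 δ

/-- ADD (from SPN). Write `f = D b`, `g = D p`, `h = D q` (independent). `Pos` for `(p, q)`:
`D (p+q) = α g + β h`. Given: `D (b+p) = c1 (f + r1 g)`, `D (b+q) = c2 (f + r2 h)`. `Pos` for the pairs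
`((b+p)/2, q)`, `((b+q)/2, p)`, `(b, (p+q)/2)` (killed by the same `x1`, by SPN; the `D`'s of each
pair are independent): `D (b+p+q) = A D(b+p) + B h = A' D(b+q) + B' g = A'' f + B'' D(p+q)`, all
coefficients positive. Comparison: `A c1 = A' c2 = A''`, `A'' r1 = A c1 r1 = B' = B'' α`,
`A'' r2 = A' c2 r2 = B = B'' β`. Take `r3 = B'' / A''`. -/
def S_ADD : Prop :=
  ∀ (E : Type) [NormedAddCommGroup E] [NormedSpace ℝ E] (D : E → StrongDual ℝ E), Sm E → NF D →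
    ∀ (x0 y0 : E) (δ : ℝ), Loc D x0 y0 δ → Pos D x0 y0 δ → ∀ b p q x1 : E,
      ‖b - y0‖ < δ → ‖p - y0‖ < δ → ‖q - y0‖ < δ → ‖x1 - x0‖ < δ →
      D b x1 = 0 → D p x1 = 0 → D q x1 = 0 → LinearIndependent ℝ ![D b, D p, D q] →
      ∀ r1 r2 : ℝ, Rat D b p r1 → Rat D b q r2 →
        ∃ r3 : ℝ, Rat D b (p + q) r3 ∧ r3 • D (p + q) = r1 • D p + r2 • D q

/-- RAT (from ROB; continuity of the ratio). For `y` near `y1` the ratio exists (`Pos` with
`a = b = 1`, the `x'` of ROB) and is unique by independence. With `e1, e2` dual to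
`D b, D y1`: from `D (b+y) = c (D b + r D y)`, evaluated at `e1` and `e2`,
`r = D(b+y) e2 / (D(b+y) e1 * D y e2 - D(b+y) e2 * D y e1)`, continuous at `y1` (CON). -/
def S_RAT : Prop :=
  ∀ (E : Type) [NormedAddCommGroup E] [NormedSpace ℝ E] (D : E → StrongDual ℝ E), Sm E → NF D →
    ∀ (x0 y0 : E) (δ : ℝ), Loc D x0 y0 δ → Pos D x0 y0 δ → ∀ b y1 : E,
      ‖b - y0‖ < δ → ‖y1 - y0‖ < δ → D b x0 = 0 → D y1 x0 = 0 → LinearIndependent ℝ ![D b, D y1] →
      ∃ ρ : ℝ, 0 < ρ ∧ ∃ R : E → ℝ, (∀ y : E, ‖y - y1‖ < ρ → Rat D b y (R y)) ∧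
        ∀ e : E, ContinuousAt (fun y => R y * D y e) y1

/-- LIN. Pexider's equation. `F u + G v = K (u + v)` on a ball gives
`F (u + v) = F u + F v - F 0` for `‖u‖, ‖v‖ < ρ / 2`; so `τ u = F u - F 0` is additive near `0` and
continuous at `0` at each vector; `T u = n • τ (n⁻¹ • u)` for large `n`. -/
def S_LIN : Prop :=
  ∀ (E : Type) [NormedAddCommGroup E] [NormedSpace ℝ E] (F G K : E → StrongDual ℝ E) (ρ : ℝ),
    0 < ρ → (∀ u v : E, ‖u‖ < ρ → ‖v‖ < ρ → F u + G v = K (u + v)) →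
    (∀ e : E, ContinuousAt (fun u => F u e) 0) →
    ∃ T : E →ₗ[ℝ] StrongDual ℝ E, (∀ e : E, Continuous fun u => T u e) ∧
      ∀ u : E, ‖u‖ < ρ / 2 → F u = F 0 + T u

/-- PEX (from ROB, ADD, RAT, LIN, TRI). Let `a, b` be as in TRI (then `D a x0 = D b x0 = 0` by Loc). For
`y` near `y0`, near `a`, or near `y0 + a` let `Ψ y = r • D y`, where `Rat D b y r` (`r` is unique when
`D b, D y` are independent). By ROB (triple `(b, y0, a)`, vector `x0`) and ADD:
`Ψ (y0 + u) + Ψ (a + v) = Ψ (y0 + a + (u + v))` for small `u, v`. By LIN (with RAT)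
`Ψ (y0 + u) = Ψ y0 + T u` for small `u`. Homogeneity: `Ψ ((1+ε) y) = Ψ y + ε T y` is a multiple of
`D y` for `y = y0 + u` near `y0` and small `ε ≠ 0`, so `T y = k y • Ψ y`, i.e. `T y0 + T u = k y • (Ψ y0 + T u)`,
`T y0 = k y0 • Ψ y0`, so `(k y0 - k y) • Ψ y0 = (k y - 1) • T u`. If some `T u` is not a multiple of
`Ψ y0` this gives (for `u` small, scaled) `k y0 = 1`, `Ψ y0 = T y0`, and so `Ψ y = T y` near `y0`. If all `T u` were
multiples of `D y0` then `D y` would be a multiple of `D y0` for all `y` near `y0`, so every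
`w ∈ ker D y0` would be `0` by `NR`: impossible. -/
def S_PEX : Prop :=
  ∀ (E : Type) [NormedAddCommGroup E] [NormedSpace ℝ E] (D : E → StrongDual ℝ E), Tr E →
    ¬ FiniteDimensional ℝ E → Sm E → NF D → NR D →
    ∀ (x0 y0 : E) (δ : ℝ), Loc D x0 y0 δ → Pos D x0 y0 δ →
      ∃ (ρ : ℝ) (μ : E → ℝ) (T : E →ₗ[ℝ] StrongDual ℝ E), 0 < ρ ∧ ρ ≤ 1 / 4 ∧
        (∀ e : E, Continuous fun u => T u e) ∧
        ∀ y : E, ‖y - y0‖ < ρ → 0 < μ y ∧ μ y • D y = T y

/-- EQN. On the ball let `N y = ‖y‖ ^ 2`, `q y = T y y = μ y ‖y‖ > 0`. `N` has the directional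
derivative `2 ‖y‖ D y v = 2 N y * T y v / q y` along `v` (smooth norm: the function
`t ↦ ‖y + t v‖` is convex with supporting slope `D (y + t v) v`, continuous in `t`), and
`q` the derivative `T y v + T v y`. So `G = log (N / q)` has the derivative
`a_v y = (T y v - T v y) / q y` along `v`. In the plane `(s, t) ↦ y + s v + t x` the two partial
derivatives `a_v`, `a_x` of `G` are `C^1`, so `∂_t a_v = ∂_s a_x` at `(0,0)` (symmetry of second
derivatives, `second_derivative_symmetric`, or the four point difference of `G` written as two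
integrals), which is the identity. -/
def S_EQN : Prop :=
  ∀ (E : Type) [NormedAddCommGroup E] [NormedSpace ℝ E] (D : E → StrongDual ℝ E), Sm E → NF D →
    ∀ (y0 : E) (ρ : ℝ) (μ : E → ℝ) (T : E →ₗ[ℝ] StrongDual ℝ E), ‖y0‖ = 1 → 0 < ρ → ρ ≤ 1 / 4 →
      (∀ e : E, Continuous fun u => T u e) →
      (∀ y : E, ‖y - y0‖ < ρ → 0 < μ y ∧ μ y • D y = T y) →
      ∀ y x v : E, ‖y - y0‖ < ρ → 2 * T y y * (T x v - T v x) =
        (T y v - T v y) * (T y x + T x y) - (T y x - T x y) * (T y v + T v y)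

/-- SYT (from EQN). `T` is symmetric. Let `A x v = T x v - T v x`, `S x v = T x v + T v x` and
`A u0 v0 ≠ 0`. Let `w` be in the kernels of `A u0 ·` and `A v0 ·` (continuous functionals; `E` is
infinite-dimensional, so choose `w ≠ 0`). For `y` in the ball EQN for `(u0, w)` and `(v0, w)` gives
`A y w * S y u0 - A y u0 * S y w = 0` and `A y w * S y v0 - A y v0 * S y w = 0`; the determinant of this
system is, up to sign, `2 T y y * A u0 v0 ≠ 0`; so `A y w = S y w = 0`, `T y w = 0`, `D y w = 0` on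
the ball; by `NR`, `w = 0`. -/
def S_SYT : Prop :=
  ∀ (E : Type) [NormedAddCommGroup E] [NormedSpace ℝ E] (D : E → StrongDual ℝ E),
    ¬ FiniteDimensional ℝ E → Sm E → NF D → NR D →
    ∀ (y0 : E) (ρ : ℝ) (μ : E → ℝ) (T : E →ₗ[ℝ] StrongDual ℝ E), ‖y0‖ = 1 → 0 < ρ → ρ ≤ 1 / 4 →
      (∀ e : E, Continuous fun u => T u e) →
      (∀ y : E, ‖y - y0‖ < ρ → 0 < μ y ∧ μ y • D y = T y) → ∀ x v : E, T x v = T v x

/-- QUD. If `T` is symmetric then `‖y0 + t u‖ ^ 2` is a quadratic polynomial for small `t`: with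
`N t = ‖y0 + t u‖ ^ 2`, `q t = T (y0 + t u) (y0 + t u) > 0` (a quadratic polynomial) one has
`N' = 2 N T(y)(u) / q` and `q' = 2 T(y)(u)`, so `N / q` is constant. -/
def S_QUD : Prop :=
  ∀ (E : Type) [NormedAddCommGroup E] [NormedSpace ℝ E] (D : E → StrongDual ℝ E), Sm E → NF D →
    ∀ (y0 : E) (ρ : ℝ) (μ : E → ℝ) (T : E →ₗ[ℝ] StrongDual ℝ E), ‖y0‖ = 1 → 0 < ρ → ρ ≤ 1 / 4 →
      (∀ y : E, ‖y - y0‖ < ρ → 0 < μ y ∧ μ y • D y = T y) → (∀ x v : E, T x v = T v x) →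
      ∀ u : E, ∃ r b c : ℝ, 0 < r ∧ ∀ t : ℝ, |t| < r → ‖y0 + t • u‖ ^ 2 = 1 + b * t + c * t ^ 2

/-- DIF. The derivative of the norm (used in EQN and QUD): the function `t ↦ ‖y + t • v‖` is
differentiable at `0` with derivative `D y v`:
`D y (t v) ≤ ‖y + t v‖ - ‖y‖ ≤ D (y + t v) (t v)` and CON. -/
def S_DIF : Prop :=
  ∀ (E : Type) [NormedAddCommGroup E] [NormedSpace ℝ E] (D : E → StrongDual ℝ E), Sm E → NF D →
    ∀ y v : E, y ≠ 0 → HasDerivAt (fun t : ℝ => ‖y + t • v‖) (D y v) 0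

/-- FIN. By transitivity and homogeneity the property of `y0` holds at every `z ≠ 0`
(`‖z + t u‖ = ‖z‖ ‖y0 + (t / ‖z‖) T⁻¹ u‖`, `T y0 = z / ‖z‖`); `T.PAR` gives the parallelogram law and
`E` is a Hilbert space (`InnerProductSpace.ofNorm`; see `Pool/Agent/Lead/BR/Asm.lean`). -/
def S_FIN : Prop :=
  ∀ (E : Type) [NormedAddCommGroup E] [NormedSpace ℝ E] [CompleteSpace E], Tr E →
    ∀ y0 : E, ‖y0‖ = 1 →
      (∀ u : E, ∃ r b c : ℝ, 0 < r ∧ ∀ t : ℝ, |t| < r → ‖y0 + t • u‖ ^ 2 = 1 + b * t + c * t ^ 2) →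
      Hilb E

/-- CNV. The converse: in a Hilbert space `Bo x y ↔ ⟪x, y⟫ = 0`, so both sets are everything, and
`Orth x` and `Pairs E` are nonempty complete metric spaces (see `Pool/Agent/Lead/BR/T/CV2.lean`). -/
def S_CNV : Prop :=
  ∀ (E : Type) [NormedAddCommGroup E] [NormedSpace ℝ E] [CompleteSpace E], 1 < Module.rank ℝ E →
    Hilb E → (∃ x : E, ‖x‖ = 1 ∧ ¬ IsMeagre {y : Orth x | Bo (y : E) x}) ∧
      ¬ IsMeagre {q : Pairs E | Bo q.1.2 q.1.1}

end Pool.Agent.H66.SO
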