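import Pool.Agent.H66.SO.Stm

/-!
# Project SO, two more statements: orthogonal decompositions
-/

set_option autoImplicit false

namespace Pool.Agent.H66.SO

open TopologicalSpace Metric Filter Topology
open Pool.Agent.Lead.BR (Tr Sm NF Bo Orth Pairs Hilb)

/-- `x = t y + (x - t y)` with mutually orthogonal `y` and `x - t y` -/
def Dec {E : Type} [NormedAddCommGroup E] [NormedSpace ℝ E] (x y : E) : Prop :=
  ∃ t : ℝ, Bo y (x - t • y) ∧ Bo (x - t • y) y

/-- TOPC. For unit `y`: `Bo y (x - t y)` iff `D y (x - t y) = 0` iff `t = D y x` (ORT), so for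
`y ≠ ± x`, `Dec x y` iff `D (x - (D y x) • y) y = 0`; this is a closed condition on `y` in the sphere
minus `{x, -x}` (CON), and `{x, -x}` is nowhere dense in the sphere (infinite dimension). So there are
a unit `y1 ≠ ± x` and `r > 0` with `D (x - (D y x) • y) y = 0` for all unit `y` with `‖y - y1‖ < r`.
By `near_open` (vector `e = y1`, `κ = r/4`) for every unit `x'` near `x` there are isometries `T` with
`T x → x'`, `‖T y1 - y1‖ ≤ κ`; for unit `y` near `y1`, `T⁻¹ y` is within `r` of `y1`, so
`D (T x - (D y (T x)) • y) y = 0` (EQV), and in the limit `D (x' - (D y x') • y) y = 0` (CON; the vector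
is not `0` near `(x, y1)`). By homogeneity this holds for all `x'` near `x` and unit `y` near `y1`.
Let `s = D y1 x`, `z1 = x - s • y1 ≠ 0`, `D y1 z1 = 0`. For `z` near `z1` and unit `y` near `y1` with
`D y z = 0` put `x' = z + s • y`, near `x`, `D y x' = s`: so `D z y = 0`. This is `Loc1` with
`x0 = y1`, `y0 = z1 / ‖z1‖` (homogeneity again). -/
def S_TOPC : Prop :=
  ∀ (E : Type) [NormedAddCommGroup E] [NormedSpace ℝ E] [CompleteSpace E] [SeparableSpace E]
    (D : E → StrongDual ℝ E), Tr E → ¬ FiniteDimensional ℝ E → Sm E → NF D → ∀ x : E, ‖x‖ = 1 →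
    ¬ IsMeagre {y : sphere (0 : E) 1 | Dec x (y : E)} → ∃ (x0 y0 : E) (r : ℝ), Loc1 D x0 y0 r

/-- CNW. In a Hilbert space `Dec x y` for all `x` and unit `y` (`t = ⟪y, x⟫`), and the unit sphere is
a nonempty complete metric space. -/
def S_CNW : Prop :=
  ∀ (E : Type) [NormedAddCommGroup E] [NormedSpace ℝ E] [CompleteSpace E], 1 < Module.rank ℝ E →
    Hilb E → ∃ x : E, ‖x‖ = 1 ∧ ¬ IsMeagre {y : sphere (0 : E) 1 | Dec x (y : E)}

end Pool.Agent.H66.SO
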